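import Pool.Agent.W5h21.MH.One
import Pool.Agent.W5h21.MH.Tran2

/-!
# The Mumford-Tate conjecture for `H^2` at every prime `ℓ`, from one prime

Let `X` be a smooth projective variety over a field `k` which is finitely generated over `ℚ`, with a
model over a base with a rational point `t : Spec ℚ → B` of good reduction of the family (for example
`k = ℚ`), and `H^2(X, ℚ)(1) = N ⊕ T_1 ⊕ ... ⊕ T_r`, `N` the algebraic classes (`k^κ`) and `T_i`
polarised rational Hodge structures of level two with the Hodge numbers `(p_i, q_i, p_i)`, pairwise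
not isomorphic and without endomorphisms besides the rational scalars (for example a product of
surfaces). Suppose that `p_i = 1` or `2 p_i^2 (p_i^2 + 1) < (q_i - 2 p_i) (q_i + p_i)`, and that the
rank `n_i = 2 p_i + q_i` is at least five and not six; it may be odd or even. `Γ` is the fundamental
group of `B` (or the Galois group of `k`), and `θ : G_ℚ → Γ` the homomorphism given by `t`. `Γ` acts on
`N ⊗ ℚ_ℓ` through a finite group and preserves the pieces `T_i` and their intersection forms; `χ` is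
the inverse of the cyclotomic character. By Deligne the geometric Frobenius elements at the primes `v` outside a finite
set act on `T_i(-1)`, a part of `H^2(X)`, with characteristic polynomials `P_{i,v}` with integral
coefficients, which do not depend on `ℓ`, and whose complex roots have the absolute value `N(v)`.

**Theorem.** Suppose that for ONE prime number `ℓ₀` the Mumford-Tate conjecture holds for the fibre of
`X` at `t`, where `ℓ₀` does not divide `n_i - 1` if `n_i` is odd, and `ℓ₀` does not divide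
`(n_i - 2) (n_i - 4)` and the discriminant of `T_i` has even valuation at `ℓ₀` if `n_i` is even. Then
(a) the Mumford-Tate conjecture for `H^2(X)` holds for all prime numbers `ℓ` outside a set of natural
density zero,
(b) for EVERY prime number `ℓ` the Mumford-Tate conjecture for `H^2(X)` at `ℓ` is equivalent to the
following case of the Tate conjecture: for all `i` the endomorphisms of `T_i ⊗ ℚ_ℓ` which commute with
an open subgroup of `Γ` are the scalars.

So over the rational numbers no semisimplicity is needed, and there is no condition on sums or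
products of different pieces. By the theorem in the file SeveralPieces the assumption at `ℓ₀` can be
verified with finitely many Frobenius polynomials.

Idea of the proof: At `ℓ₀` the Zariski closure of the image contains all special orthogonal groups
`SO(T_i)`, so the joint Lie algebra is the sum of the `so(T_i)`. Then the representations `T_i ⊗ ℚ_ℓ` are
semisimple for every `ℓ` (theorem in the starting files, for the twists of weight two), and the
theorem in the starting files for several systems gives the full joint Lie algebra at every `ℓ` at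
which the commutants are scalar. By the theorem on big Hodge structures the monodromy group is then
the Mumford-Tate group. Conversely, if the conjecture holds at `ℓ` then the Lie algebra contains
`so(T_i)`, whose commutant is the field of scalars.
-/

set_option autoImplicit false

namespace Pool.Agent.Results.MP_6369ef_ag.EveryPrimeOverRationals

open MvPolynomial Matrix Filter Topology NumberField IsDedekindDomain
open Pool.Agent.W544.PG (HS)

noncomputable section

section groups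

variable {ι : Type} [Fintype ι] [DecidableEq ι]

/-- The value of a rational polynomial in the entries at a matrix. -/
def value {R : Type} [CommRing R] [Algebra ℚ R] (g : Matrix ι ι R)
    (f : MvPolynomial (ι × ι) ℚ) : R :=
  aeval (fun q : ι × ι => g q.1 q.2) f

/-- `G` is the set of complex points of an algebraic subgroup over `ℚ` of the general linear
group. -/
def IsQGroup (G : Set (Matrix ι ι ℂ)) : Prop :=
  (∃ P : Set (MvPolynomial (ι × ι) ℚ), ∀ g, g ∈ G ↔ g.det ≠ 0 ∧ ∀ f ∈ P, value g f = 0) ∧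
  1 ∈ G ∧ (∀ a ∈ G, ∀ b ∈ G, a * b ∈ G) ∧ ∀ a ∈ G, a⁻¹ ∈ G

/-- The complex points of the Mumford-Tate group: the smallest algebraic subgroup over `ℚ` which
contains `h z` for all `z`. -/
def mumfordTate (h : ℂ → Matrix ι ι ℂ) : Set (Matrix ι ι ℂ) :=
  {g | ∀ G, IsQGroup G → (∀ z, z ≠ 0 → h z ∈ G) → g ∈ G}

/-- The points of the Mumford-Tate group over a field `R`. -/
def InMumfordTate {R : Type} [Field R] [Algebra ℚ R] (h : ℂ → Matrix ι ι ℂ)
    (g : Matrix ι ι R) : Prop :=
  ∀ f : MvPolynomial (ι × ι) ℚ, (∀ m ∈ mumfordTate h, value m f = 0) → value g f = 0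

variable {ℓ : ℕ} [Fact ℓ.Prime] {Γ : Type} [Group Γ]

/-- The points of the identity component of the Zariski closure of `ρ(Γ)` over the algebraic
closure of `ℚ_ℓ`: a polynomial that vanishes on the image of a subgroup of finite index vanishes
at `g`. -/
def InMonodromy (ρ : Γ →* Matrix ι ι ℚ_[ℓ]) (g : Matrix ι ι (AlgebraicClosure ℚ_[ℓ])) : Prop :=
  ∀ f : MvPolynomial (ι × ι) (AlgebraicClosure ℚ_[ℓ]),
    (∃ Δ : Subgroup Γ, Δ.FiniteIndex ∧ ∀ s ∈ Δ,
      aeval (fun q : ι × ι => algebraMap ℚ_[ℓ] (AlgebraicClosure ℚ_[ℓ]) (ρ s q.1 q.2)) f = 0) →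
    aeval (fun q : ι × ι => g q.1 q.2) f = 0

/-- The Mumford-Tate conjecture: the two groups agree over `ℚ_ℓ`. -/
def MumfordTateConjecture (h : ℂ → Matrix ι ι ℂ) (ρ : Γ →* Matrix ι ι ℚ_[ℓ]) : Prop :=
  ∀ g : Matrix ι ι (AlgebraicClosure ℚ_[ℓ]), g.det ≠ 0 → (InMonodromy ρ g ↔ InMumfordTate h g)

end groups

section pieces

variable {n r : ℕ}

/-- The action of `ℂ^×` on `N ⊕ T`: trivial on `N`, and on `T` it is multiplication by `conj z / z`,
`1`, `z / conj z` on the parts where `T.x` is `1`, `0`, `-1`. -/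
def hodge (κ : Type) [Fintype κ] [DecidableEq κ] (T : HS n) (z : ℂ) :
    Matrix (κ ⊕ Fin n) (κ ⊕ Fin n) ℂ :=
  fromBlocks 1 0 0 (1 + ((starRingEnd ℂ z / z - 1) / 2) • (T.x * T.x + T.x) +
    ((z / starRingEnd ℂ z - 1) / 2) • (T.x * T.x - T.x))

/-- An `ℓ`-adic integral matrix as a matrix over `ℚ_ℓ`. -/
def rat {ℓ : ℕ} [Fact ℓ.Prime] (g : Matrix (Fin n) (Fin n) ℤ_[ℓ]) :
    Matrix (Fin n) (Fin n) ℚ_[ℓ] :=
  g.map (algebraMap ℤ_[ℓ] ℚ_[ℓ])

/-- The representation `α ⊕ β` of the Galois group on `N ⊕ T`. -/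
def galois {κ : Type} [Fintype κ] [DecidableEq κ] {ℓ : ℕ} [Fact ℓ.Prime] {Γ : Type} [Group Γ]
    (α : Γ →* Matrix κ κ ℚ_[ℓ]) (β : Γ →* Matrix (Fin n) (Fin n) ℤ_[ℓ]) :
    Γ →* Matrix (κ ⊕ Fin n) (κ ⊕ Fin n) ℚ_[ℓ] where
  toFun σ := fromBlocks (α σ) 0 0 (rat (β σ))
  map_one' := (Pool.Agent.Y95.MT.tot α β).map_one
  map_mul' := (Pool.Agent.Y95.MT.tot α β).map_mul

/-- The action of the Galois group on the piece `T_i` (the basis vectors `a` with `c a = i`). -/
def piece {ℓ : ℕ} [Fact ℓ.Prime] {Γ : Type} [Group Γ] (c : Fin n → Fin r)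
    (β : Γ →* Matrix (Fin n) (Fin n) ℤ_[ℓ]) (i : Fin r) (σ : Γ) :
    Matrix {a // c a = i} {a // c a = i} ℚ_[ℓ] :=
  (rat (β σ)).submatrix (fun a => a.1) (fun a => a.1)

/-- the absolute Galois group of `K`, with its profinite (Krull) topology -/
abbrev AbsoluteGaloisGroup (K : Type) [Field K] : Type := Gal(AlgebraicClosure K/K)

/-- `σ` is an (arithmetic) Frobenius element at the prime `v` of the number field `K`: for some prime
`Q` of the algebraic closure above `v` it acts on the residue field as `x ↦ x ^ N(v)` -/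
def IsFrobenius {K : Type} [Field K] [NumberField K] (v : HeightOneSpectrum (𝓞 K))
    (σ : AbsoluteGaloisGroup K) : Prop :=
  ∃ Q : Ideal (𝓞 (AlgebraicClosure K)), Q.IsMaximal ∧
    Q.comap (algebraMap (𝓞 K) (𝓞 (AlgebraicClosure K))) = v.asIdeal ∧
    ∀ x : 𝓞 (AlgebraicClosure K), σ • x - x ^ Ideal.absNorm v.asIdeal ∈ Q

/-- `χ` is the inverse of the cyclotomic character, and `α` and `β` are the representations on the
algebraic classes and on `T`: `α` and `β` are continuous, `α` has finite image, `β` preserves the form of `T` and the pieces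
`T_i`, and for all `v ∉ S` which are prime to `ℓ` (the image under `θ` of) a geometric Frobenius
element `σ⁻¹` (`σ` arithmetic) at `v` has `χ(σ⁻¹) = N(v)`, and its action on `T_i(-1)`, which is `N(v)`
times its action on `T_i`, has the characteristic polynomial `P i v` -/
def IsSystem {Γ : Type} [Group Γ] [TopologicalSpace Γ] (θ : AbsoluteGaloisGroup ℚ →* Γ)
    {κ : Type} [Fintype κ] [DecidableEq κ] (T : HS n) (c : Fin n → Fin r)
    (S : Set (HeightOneSpectrum (𝓞 ℚ)))
    (P : Fin r → HeightOneSpectrum (𝓞 ℚ) → Polynomial ℤ) (ℓ : ℕ) [Fact ℓ.Prime]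
    (χ : Γ →* ℚ_[ℓ]) (α : Γ →* Matrix κ κ ℚ_[ℓ]) (β : Γ →* Matrix (Fin n) (Fin n) ℤ_[ℓ]) :
    Prop :=
  Continuous α ∧ (Set.range α).Finite ∧ Continuous β ∧ Continuous (fun g => χ (θ g)) ∧
    (∀ σ, (rat (β σ))ᵀ * T.Q.map (algebraMap ℚ ℚ_[ℓ]) * rat (β σ) =
      T.Q.map (algebraMap ℚ ℚ_[ℓ])) ∧
    (∀ σ a b, c a ≠ c b → β σ a b = 0) ∧
    ∀ v ∉ S, (ℓ : 𝓞 ℚ) ∉ v.asIdeal → ∀ σ : AbsoluteGaloisGroup ℚ, IsFrobenius v σ →
      χ (θ σ⁻¹) = (Ideal.absNorm v.asIdeal : ℚ_[ℓ]) ∧
      ∀ i, ((Ideal.absNorm v.asIdeal : ℚ_[ℓ]) • piece c β i (θ σ⁻¹)).charpoly =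
        (P i v).map (algebraMap ℤ ℚ_[ℓ])

/-- every endomorphism which commutes with an open subgroup is a scalar -/
def HasScalarCommutants {F ι Γ : Type} [Field F] [Fintype ι] [DecidableEq ι] [Group Γ]
    [TopologicalSpace Γ] (ρ : Γ → Matrix ι ι F) : Prop :=
  ∀ (A : Matrix ι ι F) (U : Subgroup Γ), IsOpen (U : Set Γ) → (∀ σ ∈ U, A * ρ σ = ρ σ * A) →
    ∃ a : F, A = a • (1 : Matrix ι ι F)

/-- the discriminant of the form on the piece `T_i` -/
def disc (T : HS n) (c : Fin n → Fin r) (i : Fin r) : ℚ :=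
  (T.Q.submatrix (fun a : {a // c a = i} => a.1) (fun a : {a // c a = i} => a.1)).det

/-- the set `A` of prime numbers has natural density zero -/
def HasDensityZero (A : Set ℕ) : Prop :=
  Tendsto (fun n : ℕ => (Nat.card {ℓ : ℕ // ℓ ≤ n ∧ ℓ ∈ A} : ℝ) / (Nat.primeCounting n : ℝ))
    atTop (𝓝 0)

end pieces

/-- **The Mumford-Tate conjecture for `H^2 = N ⊕ T_1 ⊕ ... ⊕ T_r` at every prime, from one prime, over
the rational numbers.** -/
theorem result {n r : ℕ} (T : HS n) (c : Fin n → Fin r)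
    -- the Hodge structure
    (hQ : ∀ a b, c a ≠ c b → T.Q a b = 0) (hx : ∀ a b, c a ≠ c b → T.x a b = 0)
    (hEnd : ∀ A : Matrix (Fin n) (Fin n) ℚ,
      A.map (fun a : ℚ => (a : ℂ)) * T.x = T.x * A.map (fun a : ℚ => (a : ℂ)) →
      ∃ d : Fin r → ℚ, A = Matrix.diagonal fun a => d (c a))
    (p q : Fin r → ℕ)
    (htr : ∀ i, ∑ a with c a = i, (T.x * T.x) a a = 2 * (p i : ℂ))
    (hrk : ∀ i, (Finset.univ.filter fun a => c a = i).card = 2 * p i + q i)
    (hpq : ∀ i, p i = 1 ∨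
      (0 < p i ∧ 2 * p i ^ 2 * (p i ^ 2 + 1) < (q i - 2 * p i) * (q i + p i)))
    (hn : ∀ i, 5 ≤ 2 * p i + q i ∧ 2 * p i + q i ≠ 6)
    -- the Galois group
    (Γ : Type) [Group Γ] [TopologicalSpace Γ] [IsTopologicalGroup Γ] [CompactSpace Γ]
    (θ : AbsoluteGaloisGroup ℚ →* Γ) (hθ : Continuous θ)
    (S : Set (HeightOneSpectrum (𝓞 ℚ))) (hS : S.Finite)
    (P : Fin r → HeightOneSpectrum (𝓞 ℚ) → Polynomial ℤ)
    (hP : ∀ i, ∀ v ∉ S, (P i v).Monic ∧
      ∀ z : ℂ, Polynomial.aeval z (P i v) = 0 → ‖z‖ = (Ideal.absNorm v.asIdeal : ℝ))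
    (κ : Type) [Fintype κ] [DecidableEq κ]
    (χ : ∀ (ℓ : ℕ) [Fact ℓ.Prime], Γ →* ℚ_[ℓ])
    (α : ∀ (ℓ : ℕ) [Fact ℓ.Prime], Γ →* Matrix κ κ ℚ_[ℓ])
    (β : ∀ (ℓ : ℕ) [Fact ℓ.Prime], Γ →* Matrix (Fin n) (Fin n) ℤ_[ℓ])
    (hsys : ∀ (ℓ : ℕ) [Fact ℓ.Prime], IsSystem θ T c S P ℓ (χ ℓ) (α ℓ) (β ℓ))
    -- the prime `ℓ₀`
    (ℓ₀ : ℕ) [Fact ℓ₀.Prime]
    (hodd : ∀ i, Odd (2 * p i + q i) → ¬ ℓ₀ ∣ 2 * p i + q i - 1)
    (heven : ∀ i, Even (2 * p i + q i) →
      ¬ ℓ₀ ∣ (2 * p i + q i - 2) * (2 * p i + q i - 4) ∧ Even (padicValRat ℓ₀ (disc T c i)))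
    (h₀ : MumfordTateConjecture (hodge κ T) ((galois (α ℓ₀) (β ℓ₀)).comp θ)) :
    HasDensityZero {ℓ | ∃ _ : Fact ℓ.Prime,
      ¬ MumfordTateConjecture (hodge κ T) (galois (α ℓ) (β ℓ))} ∧
    ∀ (ℓ : ℕ) [Fact ℓ.Prime], MumfordTateConjecture (hodge κ T) (galois (α ℓ) (β ℓ)) ↔
      ∀ i, HasScalarCommutants (piece c (β ℓ) i) := by
  have hB : T.Big c p q := ⟨hQ, hx, hEnd, htr, hrk, fun i => by
    rcases hpq i with h1 | h1
    · refine Or.inl ⟨h1, ?_, ?_⟩
      · have := (hn i).1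
        omega
      · have := (hn i).1
        omega
    · exact Or.inr h1⟩
  have hε := fun i => Pool.Agent.W5h21.MH.exists_equiv (hrk i)
  obtain ⟨ε⟩ : Nonempty (∀ i : Fin r, Fin (2 * p i + q i) ≃ {a // c a = i}) :=
    ⟨fun i => Classical.choice (hε i)⟩
  have he := fun i => Pool.Agent.W5h21.MH.enum_of_equiv (ε i)
  have hβ : ∀ (ℓ : ℕ) [Fact ℓ.Prime], Pool.Agent.W5h21.MH.RepC θ T c
      (fun i x => (ε i x).1) S P ℓ (χ ℓ) (β ℓ) := by
    intro ℓ _
    obtain ⟨-, -, h3, h4, h5, h6, h7⟩ := hsys ℓ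
    refine ⟨h3, ⟨h5, h6⟩, h4, fun v hv hvℓ σ hσ => (h7 v hv hvℓ σ hσ).1,
      fun i v hv hvℓ σ hσ => ?_⟩
    rw [← (h7 v hv hvℓ σ hσ).2 i]
    have h8 := Matrix.charpoly_reindex (ε i).symm
      ((Ideal.absNorm v.asIdeal : ℚ_[ℓ]) • piece c (β ℓ) i (θ σ⁻¹))
    rw [Matrix.reindex_apply, Equiv.symm_symm] at h8
    exact h8
  have hal : ∀ i, Pool.Agent.R932.PO.Allows (Pool.Agent.W5h21.MH.kd (2 * p i + q i))
      (2 * p i + q i) ℓ₀ (Pool.Agent.W5h21.MH.bform T (fun x => (ε i x).1) ℓ₀) := by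
    intro i
    unfold Pool.Agent.W5h21.MH.kd
    by_cases h : Odd (2 * p i + q i)
    · rw [if_pos h]
      exact hodd i h
    · rw [if_neg h]
      obtain ⟨h1, h2⟩ := heven i (Nat.not_odd_iff_even.1 h)
      refine ⟨h1, ?_⟩
      have h3 : (Pool.Agent.W5h21.MH.bform T (fun x => (ε i x).1) ℓ₀).det =
          ((disc T c i : ℚ) : ℚ_[ℓ₀]) := by
        have h4 := RingHom.map_det (algebraMap ℚ ℚ_[ℓ₀])
          (T.Q.submatrix (fun x => (ε i x).1) (fun x => (ε i x).1))
        rw [RingHom.mapMatrix_apply] at h4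
        have h5 : (T.Q.submatrix (fun x => (ε i x).1) (fun x => (ε i x).1)).det = disc T c i := by
          unfold disc
          rw [← Matrix.det_submatrix_equiv_self (ε i)]
          rfl
        rw [h5] at h4
        exact h4.symm
      rw [h3, Padic.valuation_ratCast]
      exact h2
  have hmain := Pool.Agent.W5h21.MH.one_prime (κ := κ) (Module.finrank_self ℚ) hB he hn hS hθ χ α
    (fun ℓ _ => ⟨(hsys ℓ).1, (hsys ℓ).2.1⟩) β hβ hP ℓ₀ hal h₀
  refine ⟨hmain.1, fun ℓ _ => ?_⟩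
  refine Iff.trans (hmain.2 ℓ) (forall_congr' fun i => ?_)
  exact Pool.Agent.W5h21.MH.sc_iff (ε i) (ρ := piece c (β ℓ) i)

end

end Pool.Agent.Results.MP_6369ef_ag.EveryPrimeOverRationals
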