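import Mathlib
import Pool.Agent.W5h23.Wt.Bridge

/-!
# MP_6369ef_ag: Hodge classes and Tate classes in four variables

`W` is a rational vector space with a polarised Hodge structure of weight zero, such as `H²(X, ℚ(1))`,
and `ρ` a continuous representation of a compact group `Γ` on `V = ℚ_ℓ ⊗ W` which preserves the
polarisation.  No relation between the representation and the Hodge structure is assumed.
-/

set_option autoImplicit false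

namespace Pool.Agent.Results.MP_6369ef_ag.FourVariables

open Module TensorProduct Pool.Agent.H204R3.GP Pool.Agent.W5h23.Wt

/-- **The Mumford-Tate conjecture for `H²` and the classes in four variables.**
`hodge` and `tate` are the Hodge classes and the Tate classes in the spaces of multilinear forms;
`cH` and `cT` the classes of their Lie algebras; `z` and `z'` the skew parts of the centres of the
algebras of endomorphisms. -/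
theorem result {ℓ : ℕ} [Fact ℓ.Prime] {W : Type} [AddCommGroup W] [Module ℚ W]
    [FiniteDimensional ℚ W] {H : ℤ → Submodule ℂ (ℂ ⊗[ℚ] W)} {q₀ : W →ₗ[ℚ] W →ₗ[ℚ] ℚ}
    (hP : IsPolarisedHodge H q₀)
    {Γ : Type} [Group Γ] [TopologicalSpace Γ] [IsTopologicalGroup Γ] [CompactSpace Γ]
    {ρ : Representation ℚ_[ℓ] Γ (ℚ_[ℓ] ⊗[ℚ] W)}
    (hcont : ∀ (f : Dual ℚ_[ℓ] (ℚ_[ℓ] ⊗[ℚ] W)) (x : ℚ_[ℓ] ⊗[ℚ] W), Continuous fun γ => f (ρ γ x))
    {q : (ℚ_[ℓ] ⊗[ℚ] W) →ₗ[ℚ_[ℓ]] (ℚ_[ℓ] ⊗[ℚ] W) →ₗ[ℚ_[ℓ]] ℚ_[ℓ]}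
    (hqq : q = LinearMap.BilinForm.baseChange ℚ_[ℓ] q₀)
    (hq : ∀ s u v, q (ρ s u) (ρ s v) = q u v)
    {hodge tate : FormSets ℚ_[ℓ] (ℚ_[ℓ] ⊗[ℚ] W)}
    (hH : hodge = HodgeSets ℚ_[ℓ] H) (hT : tate = TateSets ρ)
    {z z' : Set (End ℚ_[ℓ] (ℚ_[ℓ] ⊗[ℚ] W))}
    (hz : z = SkewCentre q (HodgeEndos ℚ_[ℓ] H)) (hz' : z' = SkewCentre q (TateEndos ρ)) :
    -- (1) Hodge classes are Tate classes
    ∃ cH ∈ hodge (Fin 2 × Fin 2), (∀ φ, IsLieClass q (LieOf hodge) φ ↔ φ = cH) ∧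
      List.TFAE [
        AllIn hodge tate z,
        TwoIn hodge tate ∧ FourIn hodge tate z,
        TwoIn hodge tate ∧ cH ∈ tate (Fin 2 × Fin 2)] ∧
      -- (2) Tate classes are Hodge classes
      (FiniteIndexSemisimple ρ →
        ∃ cT ∈ tate (Fin 2 × Fin 2), (∀ φ, IsLieClass q (LieOf tate) φ ↔ φ = cT) ∧
          List.TFAE [
            AllIn tate hodge z',
            TwoIn tate hodge ∧ FourIn tate hodge z',
            TwoIn tate hodge ∧ cT ∈ hodge (Fin 2 × Fin 2)] ∧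
          -- (3) the Mumford-Tate conjecture
          List.TFAE [
            AllIn hodge tate ∅ ∧ AllIn tate hodge ∅,
            LieOf tate = LieOf hodge,
            (TwoIn hodge tate ∧ TwoIn tate hodge) ∧ (FourIn hodge tate z ∧ FourIn tate hodge z) ∧
              SameIn tate hodge z,
            (TwoIn hodge tate ∧ TwoIn tate hodge) ∧
              (cH ∈ tate (Fin 2 × Fin 2) ∧ cT ∈ hodge (Fin 2 × Fin 2)) ∧ SameIn tate hodge z]) ∧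
      -- (4) the case where the adjoint involution is trivial on the centre
      (AdjointTrivialOnCentre H q₀ → ∀ Z ∈ z, Z = 0) := by
  subst hqq hH hT hz hz'
  have hE0 : ∀ κ [Fintype κ] (φ : MultilinearMap ℚ_[ℓ] (fun _ : κ => ℚ_[ℓ] ⊗[ℚ] W) ℚ_[ℓ]),
      φ ∈ HodgeSets ℚ_[ℓ] H κ ↔ φ ∈ HodgeForms ℚ_[ℓ] H κ := fun κ _ φ => Iff.rfl
  have hT0 : ∀ κ [Fintype κ] (φ : MultilinearMap ℚ_[ℓ] (fun _ : κ => ℚ_[ℓ] ⊗[ℚ] W) ℚ_[ℓ]),
      φ ∈ TateSets ρ κ ↔ IsTateForm ρ φ := fun κ _ φ => Iff.rfl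
  have hl := nondeg_bcb (K := ℚ_[ℓ]) hP
  have hndH : Pool.Agent.Y114.RM.NonDeg (LieHodge H ℚ_[ℓ]) := nonDeg_LH hP ℚ_[ℓ]
  have hH2 : ∀ φ : MultilinearMap ℚ_[ℓ] (fun _ : Fin 2 => ℚ_[ℓ] ⊗[ℚ] W) ℚ_[ℓ],
      φ ∈ HodgeForms ℚ_[ℓ] H (Fin 2) →
        KilledBy (SkewCentre (LinearMap.BilinForm.baseChange ℚ_[ℓ] q₀)
          (HodgeEndos ℚ_[ℓ] H)) φ := fun φ hφ =>
    killedBy_two hl fun Q hQ => (mem_hodgeEndos hP).2 (by rwa [hQ])
  have hT2 : ∀ φ : MultilinearMap ℚ_[ℓ] (fun _ : Fin 2 => ℚ_[ℓ] ⊗[ℚ] W) ℚ_[ℓ],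
      IsTateForm ρ φ → KilledBy (SkewCentre (LinearMap.BilinForm.baseChange ℚ_[ℓ] q₀)
        (TateEndos ρ)) φ := fun φ hφ =>
    killedBy_two hl fun Q hQ => (tateEndo_iff hl hq).1 (by rwa [hQ])
  obtain ⟨hc1, hc2, hc3⟩ := class_hodge (k := ℚ_[ℓ]) hP
  refine ⟨_, hc1, fun φ => ?_, ?_, fun hss => ?_, fun hC Z hZ => skewCentre_zero hP hC hZ⟩
  · rw [lieOf_hodge]
    exact isLieClass_iff hndH φ
  · tfae_have 1 → 2 := fun h =>
      ⟨fun φ hφ => h (Fin 2) φ hφ (hH2 φ hφ), fun φ hφ _ hk => h _ φ hφ hk⟩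
    tfae_have 2 → 3 := fun h => ⟨h.1, h.2 _ hc1 hc3 hc2⟩
    tfae_have 3 → 1 := fun h κ _ _ φ hφ hk => tate_of_hodge_gen hP hcont hq h.1 h.2 hk hφ
    tfae_finish
  · obtain ⟨hnd, hLie, hsp, hcen, hcT⟩ := lieTate_props hP hcont hq hss
    have hck := killedBy_iff.2 fun Z (hZ : Z ∈ SkewCentre
      (Pool.Agent.H204R3.SP.bcb ℚ_[ℓ] q₀) (TateEndos ρ)) =>
        pf_killed hZ.2.2 fun R => oproj_central hnd ((hcen Z).1 hZ.1) R
    have hcs := pf_symAlt (Pool.Agent.H204R3.SP.bcb ℚ_[ℓ] q₀) (symm_bcb hP) hnd hsp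
    refine ⟨_, hcT, fun φ => ?_, ?_, ?_⟩
    · rw [lieOf_tate]
      exact isLieClass_iff hnd φ
    · tfae_have 1 → 2 := fun h =>
        ⟨fun φ hφ => h (Fin 2) φ hφ (hT2 φ hφ), fun φ hφ _ hk => h _ φ hφ hk⟩
      tfae_have 2 → 3 := fun h => ⟨h.1, h.2 _ hcT hcs hck⟩
      tfae_have 3 → 1 := fun h κ _ _ φ hφ hk =>
        hodge_of_tate_gen hP hq h.1 hnd hLie hsp hcen h.2 hk hφ
      tfae_finish
    · have hem : ∀ (κ : Type) [Fintype κ] [DecidableEq κ]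
          (φ : MultilinearMap ℚ_[ℓ] (fun _ : κ => ℚ_[ℓ] ⊗[ℚ] W) ℚ_[ℓ]), KilledBy ∅ φ :=
        fun κ _ _ φ Z hZ => absurd hZ (Set.notMem_empty Z)
      have hS : SameIn (TateSets ρ) (HodgeSets ℚ_[ℓ] H) (SkewCentre
          (LinearMap.BilinForm.baseChange ℚ_[ℓ] q₀) (HodgeEndos ℚ_[ℓ] H)) ↔
          ∀ Z ∈ SkewCentre (Pool.Agent.H204R3.SP.bcb ℚ_[ℓ] q₀) (HodgeEndos ℚ_[ℓ] H),
            Z ∈ LieTate ρ ↔ Z ∈ LieHodge H ℚ_[ℓ] := by
        unfold SameIn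
        rw [lieOf_tate, lieOf_hodge]
        exact Iff.rfl
      tfae_have 1 → 3 := fun h => ⟨⟨fun φ hφ => h.1 (Fin 2) φ hφ (hem _ φ),
          fun φ hφ => h.2 (Fin 2) φ hφ (hem _ φ)⟩,
        ⟨fun φ hφ _ _ => h.1 _ φ hφ (hem _ φ), fun φ hφ _ _ => h.2 _ φ hφ (hem _ φ)⟩,
        hS.2 fun Z _ => ⟨fun hZ κ _ _ φ hφ => hZ κ φ (h.1 κ φ hφ (hem _ φ)),
          fun hZ κ _ _ φ hφ => hZ κ φ (h.2 κ φ hφ (hem _ φ))⟩⟩
      tfae_have 3 → 4 := fun h => by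
        have hE := endos_eq hP hq fun φ => ⟨fun hφ => h.1.2 φ hφ, fun hφ => h.1.1 φ hφ⟩
        refine ⟨h.1, ⟨h.2.1.1 _ hc1 hc3 hc2, h.2.1.2 _ hcT hcs ?_⟩, h.2.2⟩
        rw [hE] at hck
        exact hck
      tfae_have 4 → 2 := fun h => by
        rw [lieOf_tate, lieOf_hodge]
        exact lieTate_eq hP hq (fun φ => ⟨fun hφ => h.1.2 φ hφ, fun hφ => h.1.1 φ hφ⟩)
          hnd hLie hsp hcen h.2.1.1 h.2.1.2 (hS.1 h.2.2)
      tfae_have 2 → 1 := fun h => by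
        rw [lieOf_tate, lieOf_hodge] at h
        exact ⟨fun κ _ _ φ hφ _ => (tate_iff_of_eq hcont hP hq h φ).2 hφ,
          fun κ _ _ φ hφ _ => (tate_iff_of_eq hcont hP hq h φ).1 hφ⟩
      tfae_finish

end Pool.Agent.Results.MP_6369ef_ag.FourVariables
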