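import Pool.Agent.W5h21.MH.Fin
import Pool.Agent.W5h21.MH.Tran

/-!
# The Mumford-Tate conjecture for `H^2` with several transcendental pieces

Let `X` be a smooth projective variety over a field `k` which is finitely generated over `ℚ`, with
`H^2(X, ℚ)(1) = N ⊕ T_1 ⊕ ... ⊕ T_r`, `N` the algebraic classes (`k^κ`) and `T_i` polarised rational
Hodge structures of level two with the Hodge numbers `(p_i, q_i, p_i)`, pairwise not isomorphic and
without endomorphisms besides the rational scalars (for example a product of surfaces). Suppose that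
`p_i = 1` or `2 p_i^2 (p_i^2 + 1) < (q_i - 2 p_i) (q_i + p_i)`, and that the rank
`n_i = 2 p_i + q_i` is at least five and not six; it may be odd or even. `Γ` is the Galois group of
`k` (or the fundamental group of a model), `K` a number field and `s : G_K → Γ` the homomorphism given
by a closed point of a model of `X` (if `k` is a number field, then `K = k` and `s` is the identity).
`Γ` acts on `N ⊗ ℚ_ℓ` through a finite group, it preserves the pieces `T_i` and their intersection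
forms, and at the places `v` of `K` of good reduction the characteristic polynomial `P_{i,v}` of the
geometric Frobenius on `T_i` has rational coefficients which do not depend on `ℓ`.

**Theorem.** Suppose that for each `i` of odd rank `n_i`
(1) at some place `v₀` of good reduction `P_{i,v₀} = (X - 1) Q₀`, where no complex root of `Q₀` is a
root of unity and `x y ≠ z` for all complex roots `x`, `y`, `z` of `Q₀`,
(2) at some place `v₁` of good reduction `P_{i,v₁} = (X - 1) Q₁`, where no complex root of `Q₁` is a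
root of unity, and the rational number `Q₀(1) Q₀(-1) Q₁(1) Q₁(-1)` is not a square,
(3) `u_0, ..., u_m` are places at which the roots of `P_{i,u_j}` are simple and no quotient of
different roots is a root of unity, and for every `g` in `Gal(ℚ)` and every `d` with
`2 ≤ d ≤ n_i - 2` there are a place `v` of this kind and an element `w` of `Gal(ℚ)` which agrees with
`g` on the intersection of the splitting fields of the `P_{i,u_j}` such that no set of `d` roots of
`P_{i,v}` is stable under `w`;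
for each `i` of even rank `n_i`
(1') at some place the roots of `P_{i,w₀}` are simple and satisfy `x w = z y` with `x ≠ y` only if
`z = x`, `w = y`, or `z y = w x = 1`,
(3') the condition (3) holds for all `d` with `0 < d < n_i`, and the same with an element `w` that fixes
some root of `P_{i,v}` instead of the condition on the sets of `d` roots;
and for all `i ≠ j` with `n_i = n_j`
(4) at some place `v` of good reduction the traces of Frobenius on the exterior squares of `T_i` and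
`T_j` (the coefficients of `X^{n_i - 2}` of `P_{i,v}` and `P_{j,v}`) are different.
Then the Mumford-Tate conjecture for `H^2(X)` holds
(a) for all prime numbers `ℓ` outside a set of natural density zero,
(b) for every prime number `ℓ` at which each of the representations `T_i ⊗ ℚ_ℓ` is semisimple and has no
endomorphisms over open subgroups of `Γ` besides the scalars.

In (b) nothing is assumed on the sums or products of different pieces. The conditions (1)-(4) are
conditions on finitely many Frobenius polynomials; nothing is assumed about the representations at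
any single prime number `ℓ` in (a). The condition (4) is necessary for the conjecture at any `ℓ`.

Idea of the proof: By the theorems in the starting files, for 100 percent of the `ℓ` the Lie algebra
of the image on each single piece is the full orthogonal Lie algebra. If the Lie algebra of the joint
image on `T_i ⊕ T_j` were not the sum, then by Goursat's lemma it would be the graph of an isomorphism
`so(T_i) ≅ so(T_j)` which commutes with the Galois group; so `n_i = n_j` and the traces of all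
Frobenius elements on `so(T_i) = Λ² T_i` and `so(T_j) = Λ² T_j` would agree. So the joint Lie algebra
is full (Goursat, Kolchin, Ribet), and by the theorem on big Hodge structures in the starting files the
monodromy group is the Mumford-Tate group. For (b) take a prime number `ℓ₀` as in (a) and use the
theorem in the starting files that leads from one prime number to the others.
-/

set_option autoImplicit false

namespace Pool.Agent.Results.MP_6369ef_ag.SeveralPieces

open MvPolynomial Matrix Filter Topology NumberField IsDedekindDomain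
open Pool.Agent.W544.PG (HS)

noncomputable section

section groups

variable {ι : Type} [Fintype ι] [DecidableEq ι]

/-- The value of a rational polynomial in the entries at a matrix. -/
def value {R : Type} [CommRing R] [Algebra ℚ R] (g : Matrix ι ι R)
    (f : MvPolynomial (ι × ι) ℚ) : R :=
  aeval (fun q : ι × ι => g q.1 q.2) f

/-- `G` is the set of complex points of an algebraic subgroup over `ℚ` of the general linear
group. -/
def IsQGroup (G : Set (Matrix ι ι ℂ)) : Prop :=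
  (∃ P : Set (MvPolynomial (ι × ι) ℚ), ∀ g, g ∈ G ↔ g.det ≠ 0 ∧ ∀ f ∈ P, value g f = 0) ∧
  1 ∈ G ∧ (∀ a ∈ G, ∀ b ∈ G, a * b ∈ G) ∧ ∀ a ∈ G, a⁻¹ ∈ G

/-- The complex points of the Mumford-Tate group: the smallest algebraic subgroup over `ℚ` which
contains `h z` for all `z`. -/
def mumfordTate (h : ℂ → Matrix ι ι ℂ) : Set (Matrix ι ι ℂ) :=
  {g | ∀ G, IsQGroup G → (∀ z, z ≠ 0 → h z ∈ G) → g ∈ G}

/-- The points of the Mumford-Tate group over a field `R`. -/
def InMumfordTate {R : Type} [Field R] [Algebra ℚ R] (h : ℂ → Matrix ι ι ℂ)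
    (g : Matrix ι ι R) : Prop :=
  ∀ f : MvPolynomial (ι × ι) ℚ, (∀ m ∈ mumfordTate h, value m f = 0) → value g f = 0

variable {ℓ : ℕ} [Fact ℓ.Prime] {Γ : Type} [Group Γ]

/-- The points of the identity component of the Zariski closure of `ρ(Γ)` over the algebraic
closure of `ℚ_ℓ`: a polynomial that vanishes on the image of a subgroup of finite index vanishes
at `g`. -/
def InMonodromy (ρ : Γ →* Matrix ι ι ℚ_[ℓ]) (g : Matrix ι ι (AlgebraicClosure ℚ_[ℓ])) : Prop :=
  ∀ f : MvPolynomial (ι × ι) (AlgebraicClosure ℚ_[ℓ]),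
    (∃ Δ : Subgroup Γ, Δ.FiniteIndex ∧ ∀ s ∈ Δ,
      aeval (fun q : ι × ι => algebraMap ℚ_[ℓ] (AlgebraicClosure ℚ_[ℓ]) (ρ s q.1 q.2)) f = 0) →
    aeval (fun q : ι × ι => g q.1 q.2) f = 0

/-- The Mumford-Tate conjecture: the two groups agree over `ℚ_ℓ`. -/
def MumfordTateConjecture (h : ℂ → Matrix ι ι ℂ) (ρ : Γ →* Matrix ι ι ℚ_[ℓ]) : Prop :=
  ∀ g : Matrix ι ι (AlgebraicClosure ℚ_[ℓ]), g.det ≠ 0 → (InMonodromy ρ g ↔ InMumfordTate h g)

end groups

section pieces

variable {n r : ℕ}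

/-- The action of `ℂ^×` on `N ⊕ T`: trivial on `N`, and on `T` it is multiplication by `conj z / z`,
`1`, `z / conj z` on the parts where `T.x` is `1`, `0`, `-1`. -/
def hodge (κ : Type) [Fintype κ] [DecidableEq κ] (T : HS n) (z : ℂ) :
    Matrix (κ ⊕ Fin n) (κ ⊕ Fin n) ℂ :=
  fromBlocks 1 0 0 (1 + ((starRingEnd ℂ z / z - 1) / 2) • (T.x * T.x + T.x) +
    ((z / starRingEnd ℂ z - 1) / 2) • (T.x * T.x - T.x))

/-- An `ℓ`-adic integral matrix as a matrix over `ℚ_ℓ`. -/
def rat {ℓ : ℕ} [Fact ℓ.Prime] (g : Matrix (Fin n) (Fin n) ℤ_[ℓ]) :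
    Matrix (Fin n) (Fin n) ℚ_[ℓ] :=
  g.map (algebraMap ℤ_[ℓ] ℚ_[ℓ])

/-- The representation `α ⊕ β` of the Galois group on `N ⊕ T`. -/
def galois {κ : Type} [Fintype κ] [DecidableEq κ] {ℓ : ℕ} [Fact ℓ.Prime] {Γ : Type} [Group Γ]
    (α : Γ →* Matrix κ κ ℚ_[ℓ]) (β : Γ →* Matrix (Fin n) (Fin n) ℤ_[ℓ]) :
    Γ →* Matrix (κ ⊕ Fin n) (κ ⊕ Fin n) ℚ_[ℓ] where
  toFun σ := fromBlocks (α σ) 0 0 (rat (β σ))
  map_one' := (Pool.Agent.Y95.MT.tot α β).map_one
  map_mul' := (Pool.Agent.Y95.MT.tot α β).map_mul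

/-- The action of the Galois group on the piece `T_i` (the basis vectors `a` with `c a = i`). -/
def piece {ℓ : ℕ} [Fact ℓ.Prime] {Γ : Type} [Group Γ] (c : Fin n → Fin r)
    (β : Γ →* Matrix (Fin n) (Fin n) ℤ_[ℓ]) (i : Fin r) (σ : Γ) :
    Matrix {a // c a = i} {a // c a = i} ℚ_[ℓ] :=
  (rat (β σ)).submatrix (fun a => a.1) (fun a => a.1)

/-- the absolute Galois group of `K`, with its profinite (Krull) topology -/
abbrev AbsoluteGaloisGroup (K : Type) [Field K] : Type := Gal(AlgebraicClosure K/K)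

/-- `σ` is an (arithmetic) Frobenius element at the prime `v` of the number field `K`: for some prime
`Q` of the algebraic closure above `v` it acts on the residue field as `x ↦ x ^ N(v)` -/
def IsFrobenius {K : Type} [Field K] [NumberField K] (v : HeightOneSpectrum (𝓞 K))
    (σ : AbsoluteGaloisGroup K) : Prop :=
  ∃ Q : Ideal (𝓞 (AlgebraicClosure K)), Q.IsMaximal ∧
    Q.comap (algebraMap (𝓞 K) (𝓞 (AlgebraicClosure K))) = v.asIdeal ∧
    ∀ x : 𝓞 (AlgebraicClosure K), σ • x - x ^ Ideal.absNorm v.asIdeal ∈ Q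

/-- `α` and `β` are the representations on the algebraic classes and on `T`: both are continuous, `α` has
finite image, `β` preserves the form of `T` and the pieces `T_i`, and for all `v ∉ S` which are prime
to `ℓ` the characteristic polynomial of (the image under `s` of) the geometric Frobenius elements
`σ⁻¹` (`σ` arithmetic) at `v` on `T_i` is `P i v` -/
def IsSystem {K : Type} [Field K] [NumberField K] {Γ : Type} [Group Γ] [TopologicalSpace Γ]
    (s : AbsoluteGaloisGroup K →* Γ) {κ : Type} [Fintype κ] [DecidableEq κ] (T : HS n)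
    (c : Fin n → Fin r) (S : Set (HeightOneSpectrum (𝓞 K)))
    (P : Fin r → HeightOneSpectrum (𝓞 K) → Polynomial ℚ) (ℓ : ℕ)
    [Fact ℓ.Prime] (α : Γ →* Matrix κ κ ℚ_[ℓ]) (β : Γ →* Matrix (Fin n) (Fin n) ℤ_[ℓ]) : Prop :=
  Continuous α ∧ (Set.range α).Finite ∧ Continuous β ∧
    (∀ σ, (rat (β σ))ᵀ * T.Q.map (algebraMap ℚ ℚ_[ℓ]) * rat (β σ) =
      T.Q.map (algebraMap ℚ ℚ_[ℓ])) ∧
    (∀ σ a b, c a ≠ c b → β σ a b = 0) ∧
    ∀ i, ∀ v ∉ S, (ℓ : 𝓞 K) ∉ v.asIdeal → ∀ σ : AbsoluteGaloisGroup K, IsFrobenius v σ →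
      (piece c β i (s σ⁻¹)).charpoly = (P i v).map (algebraMap ℚ ℚ_[ℓ])

/-- every stable subspace has a stable complement -/
def IsSemisimple {F ι Γ : Type} [Field F] [Fintype ι] (ρ : Γ → Matrix ι ι F) : Prop :=
  ∀ W : Submodule F (ι → F), (∀ σ, ∀ w ∈ W, ρ σ *ᵥ w ∈ W) →
    ∃ W' : Submodule F (ι → F), IsCompl W W' ∧ ∀ σ, ∀ w ∈ W', ρ σ *ᵥ w ∈ W'

/-- every endomorphism which commutes with an open subgroup is a scalar -/
def HasScalarCommutants {F ι Γ : Type} [Field F] [Fintype ι] [DecidableEq ι] [Group Γ]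
    [TopologicalSpace Γ] (ρ : Γ → Matrix ι ι F) : Prop :=
  ∀ (A : Matrix ι ι F) (U : Subgroup Γ), IsOpen (U : Set Γ) → (∀ σ ∈ U, A * ρ σ = ρ σ * A) →
    ∃ a : F, A = a • (1 : Matrix ι ι F)

end pieces

section places

variable {K : Type} [Field K] [NumberField K]

/-- `P v = (X - 1) Q`, and no complex root of `Q` is a root of unity -/
def IsOrdinaryPlace (S : Set (HeightOneSpectrum (𝓞 K)))
    (P : HeightOneSpectrum (𝓞 K) → Polynomial ℚ) (v : HeightOneSpectrum (𝓞 K))
    (Q : Polynomial ℚ) : Prop :=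
  v ∉ S ∧ P v = (Polynomial.X - 1) * Q ∧
    ∀ k : ℕ, 0 < k → ∀ x : ℂ, Polynomial.aeval x Q = 0 → x ^ k ≠ 1

/-- the roots of `P v` are simple, and different roots have different `k`-th powers for all `k > 0` -/
def IsRegularPlace (S : Set (HeightOneSpectrum (𝓞 K)))
    (P : HeightOneSpectrum (𝓞 K) → Polynomial ℚ) (v : HeightOneSpectrum (𝓞 K)) : Prop :=
  v ∉ S ∧ (P v).Separable ∧ ∀ k : ℕ, 0 < k → ∀ x y : ℂ,
    Polynomial.aeval x (P v) = 0 → Polynomial.aeval y (P v) = 0 → x ^ k = y ^ k → x = y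

/-- the roots of `P v` are simple, and `x w = z y` for roots `x ≠ y`, `z`, `w` only if `z = x` and
`w = y`, or `z y = 1` and `w x = 1` -/
def IsGenericPlace (S : Set (HeightOneSpectrum (𝓞 K)))
    (P : HeightOneSpectrum (𝓞 K) → Polynomial ℚ) (v : HeightOneSpectrum (𝓞 K)) : Prop :=
  v ∉ S ∧ (P v).Separable ∧ ∀ x y z w : ℂ, Polynomial.aeval x (P v) = 0 →
    Polynomial.aeval y (P v) = 0 → Polynomial.aeval z (P v) = 0 → Polynomial.aeval w (P v) = 0 →
    x ≠ y → x * w = z * y → (z = x ∧ w = y) ∨ (z * y = 1 ∧ w * x = 1)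

/-- the splitting field of `Q` in the algebraic closure of `ℚ` -/
def splittingField (Q : Polynomial ℚ) : Set (AlgebraicClosure ℚ) :=
  (IntermediateField.adjoin ℚ {x : AlgebraicClosure ℚ | Polynomial.aeval x Q = 0} :
    IntermediateField ℚ (AlgebraicClosure ℚ))

/-- `R` is a set of roots of `Q` which is stable under `w` -/
def IsStableSet (w : AbsoluteGaloisGroup ℚ) (Q : Polynomial ℚ) (R : Set (AlgebraicClosure ℚ)) :
    Prop :=
  (∀ x ∈ R, Polynomial.aeval x Q = 0) ∧ ∀ x ∈ R, w x ∈ R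

/-- the conditions (1), (2), (3) on the Frobenius polynomials of a piece of odd rank `N` -/
def OddConditions (S : Set (HeightOneSpectrum (𝓞 K)))
    (P : HeightOneSpectrum (𝓞 K) → Polynomial ℚ) (N : ℕ) : Prop :=
  Odd N ∧
  (∃ (v₀ : HeightOneSpectrum (𝓞 K)) (Q₀ : Polynomial ℚ), IsOrdinaryPlace S P v₀ Q₀ ∧
    (∀ x y z : ℂ, Polynomial.aeval x Q₀ = 0 → Polynomial.aeval y Q₀ = 0 →
      Polynomial.aeval z Q₀ = 0 → x * y ≠ z) ∧
    ∃ (v₁ : HeightOneSpectrum (𝓞 K)) (Q₁ : Polynomial ℚ), IsOrdinaryPlace S P v₁ Q₁ ∧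
      ¬ IsSquare (Q₀.eval 1 * Q₀.eval (-1) * (Q₁.eval 1 * Q₁.eval (-1)))) ∧
  ∃ (m : ℕ) (u : Fin (m + 1) → HeightOneSpectrum (𝓞 K)), (∀ j, IsRegularPlace S P (u j)) ∧
    ∀ (g : AbsoluteGaloisGroup ℚ) (d : ℕ), 2 ≤ d → d + 2 ≤ N →
      ∃ (v : HeightOneSpectrum (𝓞 K)) (w : AbsoluteGaloisGroup ℚ), IsRegularPlace S P v ∧
        (∀ x, (∀ j, x ∈ splittingField (P (u j))) → w x = g x) ∧
        ∀ R, IsStableSet w (P v) R → R.ncard ≠ d

/-- the conditions (1'), (3') on the Frobenius polynomials of a piece of even rank `N` -/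
def EvenConditions (S : Set (HeightOneSpectrum (𝓞 K)))
    (P : HeightOneSpectrum (𝓞 K) → Polynomial ℚ) (N : ℕ) : Prop :=
  Even N ∧
  (∃ w₀ : HeightOneSpectrum (𝓞 K), IsGenericPlace S P w₀) ∧
  ∃ (m : ℕ) (u : Fin (m + 1) → HeightOneSpectrum (𝓞 K)), (∀ j, IsRegularPlace S P (u j)) ∧
    (∀ (g : AbsoluteGaloisGroup ℚ) (d : ℕ), 0 < d → d < N →
      ∃ (v : HeightOneSpectrum (𝓞 K)) (w : AbsoluteGaloisGroup ℚ), IsRegularPlace S P v ∧
        (∀ x, (∀ j, x ∈ splittingField (P (u j))) → w x = g x) ∧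
        ∀ R, IsStableSet w (P v) R → R.ncard ≠ d) ∧
    ∀ g : AbsoluteGaloisGroup ℚ,
      ∃ (v : HeightOneSpectrum (𝓞 K)) (w : AbsoluteGaloisGroup ℚ), IsRegularPlace S P v ∧
        (∀ x, (∀ j, x ∈ splittingField (P (u j))) → w x = g x) ∧
        ∃ x, Polynomial.aeval x (P v) = 0 ∧ w x = x

/-- the set `A` of prime numbers has natural density zero -/
def HasDensityZero (A : Set ℕ) : Prop :=
  Tendsto (fun n : ℕ => (Nat.card {ℓ : ℕ // ℓ ≤ n ∧ ℓ ∈ A} : ℝ) / (Nat.primeCounting n : ℝ))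
    atTop (𝓝 0)

end places

/-- **The Mumford-Tate conjecture for `H^2 = N ⊕ T_1 ⊕ ... ⊕ T_r` at 100 percent of the primes `ℓ`, and
at every prime at which the `T_i` are semisimple with scalar commutants.** -/
theorem result {n r : ℕ} (T : HS n) (c : Fin n → Fin r)
    -- the Hodge structure
    (hQ : ∀ a b, c a ≠ c b → T.Q a b = 0) (hx : ∀ a b, c a ≠ c b → T.x a b = 0)
    (hEnd : ∀ A : Matrix (Fin n) (Fin n) ℚ,
      A.map (fun a : ℚ => (a : ℂ)) * T.x = T.x * A.map (fun a : ℚ => (a : ℂ)) →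
      ∃ d : Fin r → ℚ, A = Matrix.diagonal fun a => d (c a))
    (p q : Fin r → ℕ)
    (htr : ∀ i, ∑ a with c a = i, (T.x * T.x) a a = 2 * (p i : ℂ))
    (hrk : ∀ i, (Finset.univ.filter fun a => c a = i).card = 2 * p i + q i)
    (hpq : ∀ i, p i = 1 ∨
      (0 < p i ∧ 2 * p i ^ 2 * (p i ^ 2 + 1) < (q i - 2 * p i) * (q i + p i)))
    (hn : ∀ i, 5 ≤ 2 * p i + q i ∧ 2 * p i + q i ≠ 6)
    -- the Galois group
    (K : Type) [Field K] [NumberField K] (Γ : Type) [Group Γ] [TopologicalSpace Γ]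
    [IsTopologicalGroup Γ] [CompactSpace Γ] (s : AbsoluteGaloisGroup K →* Γ) (hs : Continuous s)
    (S : Set (HeightOneSpectrum (𝓞 K))) (hS : S.Finite)
    (P : Fin r → HeightOneSpectrum (𝓞 K) → Polynomial ℚ)
    (κ : Type) [Fintype κ] [DecidableEq κ]
    (α : ∀ (ℓ : ℕ) [Fact ℓ.Prime], Γ →* Matrix κ κ ℚ_[ℓ])
    (β : ∀ (ℓ : ℕ) [Fact ℓ.Prime], Γ →* Matrix (Fin n) (Fin n) ℤ_[ℓ])
    (hsys : ∀ (ℓ : ℕ) [Fact ℓ.Prime], IsSystem s T c S P ℓ (α ℓ) (β ℓ))
    -- the Frobenius polynomials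
    (hP : ∀ i, OddConditions S (P i) (2 * p i + q i) ∨ EvenConditions S (P i) (2 * p i + q i))
    (hsep : ∀ i j, i ≠ j → 2 * p i + q i = 2 * p j + q j → ∃ v, v ∉ S ∧
      (P i v).coeff (2 * p i + q i - 2) ≠ (P j v).coeff (2 * p j + q j - 2)) :
    HasDensityZero {ℓ | ∃ _ : Fact ℓ.Prime,
      ¬ MumfordTateConjecture (hodge κ T) (galois (α ℓ) (β ℓ))} ∧
    ∀ (ℓ : ℕ) [Fact ℓ.Prime], (∀ i, IsSemisimple (piece c (β ℓ) i)) →
      (∀ i, HasScalarCommutants (piece c (β ℓ) i)) →
      MumfordTateConjecture (hodge κ T) (galois (α ℓ) (β ℓ)) := by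
  have hB : T.Big c p q := ⟨hQ, hx, hEnd, htr, hrk, fun i => by
    rcases hpq i with h1 | h1
    · refine Or.inl ⟨h1, ?_, ?_⟩
      · have := (hn i).1
        omega
      · have := (hn i).1
        omega
    · exact Or.inr h1⟩
  have hε := fun i => Pool.Agent.W5h21.MH.exists_equiv (hrk i)
  obtain ⟨ε⟩ : Nonempty (∀ i : Fin r, Fin (2 * p i + q i) ≃ {a // c a = i}) :=
    ⟨fun i => Classical.choice (hε i)⟩
  have he := fun i => Pool.Agent.W5h21.MH.enum_of_equiv (ε i)
  have hchar : ∀ (ℓ : ℕ) [Fact ℓ.Prime] (i : Fin r) (σ : Γ),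
      ((Pool.Agent.Y95.MT.qm (β ℓ σ)).submatrix (fun x => (ε i x).1) (fun x => (ε i x).1)) =
        (piece c (β ℓ) i σ).submatrix (ε i) (ε i) := fun ℓ _ i σ => rfl
  have hβ : ∀ (ℓ : ℕ) [Fact ℓ.Prime], Pool.Agent.W5h21.MH.RepB s T c
      (fun i x => (ε i x).1) S P ℓ (β ℓ) := by
    intro ℓ _
    obtain ⟨-, -, h3, h4, h5, h6⟩ := hsys ℓ
    refine ⟨h3, ⟨h4, h5⟩, fun i v hv hvℓ σ hσ => ?_⟩
    rw [hchar, ← h6 i v hv hvℓ σ hσ]
    have h7 := Matrix.charpoly_reindex (ε i).symm (piece c (β ℓ) i (s σ⁻¹))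
    rw [Matrix.reindex_apply, Equiv.symm_symm] at h7
    exact h7
  have hsysL : ∀ (i : Fin r) (ℓ : ℕ) [Fact ℓ.Prime],
      Pool.Agent.Y142.SS.Sys K (2 * p i + q i) ℓ
        ((Pool.Agent.W5h21.MH.brep (hβ ℓ).gal.bd (he i)).comp s) S (P i) := fun i ℓ _ =>
    ⟨((hβ ℓ).orth hs hQ he i).1, fun v hv hvℓ σ hσ =>
      ((hβ ℓ).orth hs hQ he i).2.2.2.2 v hv hvℓ σ hσ⟩
  have hnice : ∀ i v, IsRegularPlace S (P i) v → Pool.Agent.Y142.ZS.NiceP S (P i) v := fun i v hv =>
    Pool.Agent.Y142.SS.nice_of_complexA _ (hsysL i) hv.1 hv.2.1 hv.2.2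
  have hfix : ∀ (i : Fin r) (m : ℕ) (u : Fin (m + 1) → HeightOneSpectrum (𝓞 K)),
      (∀ j, IsRegularPlace S (P i) (u j)) → ∀ g w : AbsoluteGaloisGroup ℚ,
      (∀ x, (∀ j, x ∈ splittingField (P i (u j))) → w x = g x) →
      w⁻¹ * g ∈ Subgroup.closure (⋃ j, Pool.Agent.Y142.SS.Fix (P i (u j))) := by
    intro i m u hu g w hw
    have hLf : ∀ (j : Fin (m + 1)) (x : AlgebraicClosure ℚ),
        x ∈ Pool.Agent.Y142.ZI.Lf (P i (u j)) → x ∈ splittingField (P i (u j)) := by
      intro j x hx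
      have h2 : (P i (u j)).rootSet (AlgebraicClosure ℚ) =
          {x : AlgebraicClosure ℚ | Polynomial.aeval x (P i (u j)) = 0} := by
        ext y
        exact Polynomial.mem_rootSet_of_ne (hu j).2.1.ne_zero
      unfold Pool.Agent.Y142.ZI.Lf at hx
      rw [h2] at hx
      exact hx
    refine Pool.Agent.Y142.SS.field_mem _ (fun j => (hu j).2.1.ne_zero) fun x hx => ?_
    rw [AlgEquiv.mul_apply, ← hw x fun j => hLf j x (hx j), ← AlgEquiv.mul_apply, inv_mul_cancel,
      AlgEquiv.one_apply]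
  have hmain := Pool.Agent.W5h21.MH.main_pieces (κ := κ) hB he hn hS hs α
    (fun ℓ _ => ⟨(hsys ℓ).1, (hsys ℓ).2.1⟩) β hβ ?_ hsep
  · refine ⟨hmain.1, fun ℓ _ hss hsc => hmain.2 ℓ (fun i => ?_) fun i => ?_⟩
    · exact Pool.Agent.W5h21.MH.ss_tran (ε i) (hss i)
    · exact Pool.Agent.W5h21.MH.sc_tran (ε i) (hsc i)
  intro i
  rcases hP i with ⟨hodd, ⟨v₀, Q₀, hv₀, h0, v₁, Q₁, hv₁, hsq⟩, m, u, hu, hd⟩ |
    ⟨heven, ⟨w₀, hw₀⟩, m, u, hu, hd, hfx⟩
  · left
    refine ⟨hodd, v₀, v₁, Q₀, Q₁,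
      ⟨hv₀.1, hv₀.2.1, fun k hk => Pool.Agent.Y142.ZO.coprime_of_roots hv₀.2.2 k hk⟩, h0,
      ⟨hv₁.1, hv₁.2.1, fun k hk => Pool.Agent.Y142.ZO.coprime_of_roots hv₁.2.2 k hk⟩, hsq,
      m, u, fun j => hnice i _ (hu j), ?_⟩
    intro g d hd2 hdn
    have h5 := (hn i).1
    obtain ⟨v, w, hv, hw, hR⟩ := hd g d hd2 (by
      rcases hdn with h6 | h6
      · omega
      · exact h6)
    exact ⟨v, hnice i v hv, w, fun R h1 h2 => hR R ⟨h1, h2⟩, hfix i m u hu g w hw⟩
  · right
    refine ⟨heven, w₀, ?_, m, u, fun j => hnice i _ (hu j), ?_, ?_⟩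
    · refine Pool.Agent.Y142.SU.gen_of_complexU hw₀.1
        (Pool.Agent.Y142.SS.monic_of_sysA _ (hsysL i) hw₀.1).1 one_ne_zero hw₀.2.1 ?_
      intro x y z w hx hy hz hw hxy hxw
      have h6 := hw₀.2.2 x y z w hx hy hz hw hxy hxw
      rw [Rat.cast_one]
      exact h6
    · intro g d hd0 hdn
      obtain ⟨v, w, hv, hw, hR⟩ := hd g d hd0 hdn
      exact ⟨v, hnice i v hv, w, fun R h1 h2 => hR R ⟨h1, h2⟩, hfix i m u hu g w hw⟩
    · intro g
      obtain ⟨v, w, hv, hw, x, hx, hwx⟩ := hfx g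
      exact ⟨v, hnice i v hv, w, ⟨x, hx, hwx⟩, hfix i m u hu g w hw⟩

end

end Pool.Agent.Results.MP_6369ef_ag.SeveralPieces
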