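import Pool.Agent.W5h89.MTQ.Conv

/-!
# The Mumford-Tate conjecture: two zero-one laws, and semisimplicity over the rational numbers

Let `k` be a finitely generated subfield of `ℂ`, and let `𝒱` be the class of all smooth projective
varieties over `k` (or any class of smooth projective varieties which is stable under products).
`T` is the Hodge theory `X ↦ H(X(ℂ), ℚ)` on `𝒱` (all degrees together), `L` is `ℚ_ℓ`, and
the Galois group `Γ` of `k` acts on `L ⊗ H(X(ℂ), ℚ)`, which is the `ℓ`-adic cohomology of `X`
(`GaloisAction`; the action of `g` respects the degrees, products, pull-backs, the classes of cycles
and the trace up to the effect `(act g).c` of `g` on the Tate twist). The Tate classes (`IsTate`) of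
codimension `j` are the elements of `H^(2 j)(X)(j)` which are fixed by a subgroup of finite index.
Nothing is assumed on the relation between Hodge classes and Tate classes: it is neither assumed that
Hodge classes are Tate classes (this is known for abelian varieties and K3 surfaces, but not
for surfaces in general), nor that Tate classes are algebraic, and the Galois representation is not
supposed to be semisimple. The classes which are both Hodge classes and Tate classes
(`IsHodgeTate`) are the common classes; for example the classes of algebraic cycles are common
classes.

**Theorem.** Let `X` be a variety in the class, and let `pw X n` be the product of `n + 1` copies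
of `X`.

1. Either all Tate classes on all powers of `X` are linear combinations over `ℚ_ℓ` of common classes,
   or the proportion of the common classes among the Tate classes,
   `dim (common classes on X ^ n) / dim (Tate classes on X ^ n)`, tends to zero. If `k = ℚ`, then in
   the first case the Galois representations `H^i(X ^ n)` are semisimple.
2. Either all Hodge classes on all powers of `X` are Tate classes, or the proportion of the common
   classes among the Hodge classes tends to zero.

For a surface `X` with `b_1 = 0` the cohomology of `X ^ n` is a sum of Tate twists of tensor powers
of `H^2(X)(1)`, and if the Mumford-Tate conjecture holds for `H^2(X)` then the first alternatives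
are true in both cases; conversely, they mean that the two groups have the same invariants on all
tensor constructions, so they are equal if the `ℓ`-adic representation is semisimple. For `k = ℚ`
semisimplicity is part of the first alternative, so the Mumford-Tate conjecture for `H^2(X)` (for all
`H^i(X)`, and any `X`) is true if the two first alternatives are true: it can only fail if almost all
Tate classes or almost all Hodge classes on high powers of `X` fail to be common. For example, if for infinitely many `n` a
proportion of at least `ε > 0` of the Hodge classes on `X ^ n` is algebraic, and if for infinitely many `n`
a proportion of at least `ε` of the Tate classes is algebraic, then the Tate classes on all powers are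
the linear combinations of Hodge classes (and the Mumford-Tate conjecture holds, if `k = ℚ`).

Idea of the proof. If the proportion does not tend to zero, all classes considered, on all powers of
`X`, are obtained from those on one power `P` by correspondences which are (combinations of) common
classes (`Pool.Agent.Y121.AH.growth_or` in the starting files; the common classes form a system on
which the intersection form is nondegenerate, by the Hodge-Riemann relations). Let `g` be an
element of a subgroup of finite index which fixes the common classes on `P × P'` for finitely many powers
`P'` of `X`. It commutes with the correspondences, so the characteristic polynomial of `g` on `H(P)` kills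
the external powers `c ⊠ ⋯ ⊠ c` of a class `c` of the system. By Vandermonde this implies
`g ^ i c = c` for some `i ≤ dim H(P) + 1`. So a subgroup of finite index acts on the span of the
orbit of `c` through a linear group of finite exponent, and this is a finite group by a theorem
of Burnside: the class `c` is potentially fixed. This proves the second law. For the first law the
same argument is applied to the images of a Tate class under all embeddings of `ℚ_ℓ` into `ℂ`
(and, for the Hodge type, to the operator `2 ^ (p - q)` on `H^(p, q)`); then the Tate classes descend
to `ℚ`.

Semisimplicity for `k = ℚ`: in the first case the intersection form is nondegenerate on the Tate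
classes on all powers of `X`, by the Hodge-Riemann relations. The determinant `δ` of a stable subspace
`V` of `H^i(X)` is a character of the Galois group of `ℚ` which is pure at one large prime number, so
`δ ^ 2` is a power of the cyclotomic character on a subgroup of finite index, and
`Λ^d V ⊗ Λ^d V` is spanned by a Tate class on `X ^ (2 d)`. It is not orthogonal to all Tate classes,
and this gives a stable complement of `V` (`Pool.Agent.W5h89.SSE.semisimple_eff`).
-/

open CategoryTheory AlgebraicGeometry

universe u v

namespace Pool.Agent.Results.MP_6369ef_ag.ZeroOneOverQ

open Pool.Agent.H914 Pool.Agent.Y121.AHS Pool.Agent.W5h89.MTQ
open Pool.Agent.W5h89.MTZ (GaloisAction HodgeIsTate hodgeTateDim law_hodge')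
open Pool.Agent.Y133.Half (pw)

/-- **Two zero-one laws for the Mumford-Tate conjecture.** -/
theorem result {k : Type u} [Field k] {𝒱 : VarClass k} {ops : CycleOps 𝒱} (T : HodgeTheory ops)
    {L : Type} [Field L] [Algebra T.W.K L] (hL : Nonempty (L →+* ℂ))
    {Γ : Type v} [Group Γ] (A : GaloisAction T L Γ) (X : 𝒱.Obj) :
    (((∀ n j, TateIsHodgeTate A (pw X n) j) ∧
        (IsOverQ A → ∀ n i, SemisimpleIn A (pw X n) i)) ∨
      RatioToZero (fun n => hodgeTateDim A (pw X n)) fun n => tateDim A (pw X n)) ∧
    ((∀ n j, HodgeIsTate A (pw X n) j) ∨
      RatioToZero (fun n => hodgeTateDim A (pw X n)) fun n => hodgeDim T (pw X n)) :=
  ⟨law_common hL A X, law_hodge' hL A X⟩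

end Pool.Agent.Results.MP_6369ef_ag.ZeroOneOverQ
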